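import Pool.Agent.Y767.PB.Sph

open MeasureTheory Set Filter Topology
open scoped ENNReal

namespace Pool.Agent.Results.MP_88aa81_an.EveryDimension

open Pool.Agent.Y767.PB

/-- `M(x)`: the mean of `y ↦ ‖x - y‖ ^ (2 - n)` over the unit sphere of `ℝⁿ` with respect to
surface measure (normalised: this is an average). -/
noncomputable def sphMean (n : ℕ) (x : EuclideanSpace ℝ (Fin n)) : ℝ :=
  ⨍ y : Metric.sphere (0 : EuclideanSpace ℝ (Fin n)) 1, ‖x - (y : EuclideanSpace ℝ (Fin n))‖ ^ (2 - (n:ℝ))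
    ∂((volume : Measure (EuclideanSpace ℝ (Fin n))).toSphere)

/-- the mean-value property of a measurable set `E` with `0 < λ(E) < ∞` -/
def HasMVP (n : ℕ) (E : Set (EuclideanSpace ℝ (Fin n))) : Prop :=
  MeasurableSet E ∧ 0 < volume E ∧ volume E < ⊤ ∧
    ∀ x, x ∉ E → (volume.real E)⁻¹ * (∫ y in E, ‖x - y‖ ^ (2 - (n:ℝ))) = sphMean n x

/-- the removed sphere lies in the open unit ball -/
lemma small {n : ℕ} (hn : 3 ≤ n) {R : ℝ} (h1 : 1 < R) : (n:ℝ) * R ^ 2 - 2 * R ^ n < n - 2 := by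
  have h3 : (3:ℝ) ≤ n := by exact_mod_cast hn
  have hb := one_add_mul_self_lt_rpow_one_add (s := R ^ 2 - 1) (by nlinarith) (by nlinarith)
    (p := (n:ℝ) / 2) (by linarith)
  have h4 : (1 + (R ^ 2 - 1)) ^ ((n:ℝ) / 2) = R ^ n := by
    rw [show 1 + (R ^ 2 - 1) = R ^ 2 by ring, ← Real.rpow_natCast R 2,
      ← Real.rpow_mul (by linarith), ← Real.rpow_natCast R n]
    congr 1
    push_cast
    ring
  rw [h4] at hb
  linarith

lemma norm_lt_one {n : ℕ} (hn : 3 ≤ n) {R : ℝ} (h1 : 1 < R) {t : ℝ}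
    (h : (n - 2) * t ^ 2 = n * R ^ 2 - 2 * R ^ n) : t < 1 := by
  have h3 : (3:ℝ) ≤ n := by exact_mod_cast hn
  have h4 := small hn h1
  rw [← h] at h4
  have h5 : t ^ 2 < 1 := by
    by_contra hc
    push Not at hc
    have : ((n:ℝ) - 2) * 1 ≤ (n - 2) * t ^ 2 := mul_le_mul_of_nonneg_left hc (by linarith)
    linarith
  nlinarith

/-- the ball of radius `R > 1` minus a closed subset of the sphere
`(n - 2) ‖x‖² = n R² - 2 Rⁿ` has the mean-value property -/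
theorem mvp_family {k : ℕ} {R : ℝ} (h1 : 1 < R) {F : Set (E (k + 3))} (hF : IsClosed F)
    (hFs : ∀ x ∈ F, (((k + 3 : ℕ) : ℝ) - 2) * ‖x‖ ^ 2 = ((k + 3 : ℕ) : ℝ) * R ^ 2 - 2 * R ^ (k + 3)) :
    HasMVP (k + 3) (Metric.ball (0 : E (k + 3)) R \ F) := by
  have hR : 0 < R := by linarith
  have hk : (0:ℝ) < (k:ℝ) + 1 := by positivity
  have hF0 : volume F = 0 := by
    have hsub : F ⊆ Metric.sphere (0 : E (k + 3))
        (Real.sqrt ((((k + 3 : ℕ) : ℝ) * R ^ 2 - 2 * R ^ (k + 3)) / (k + 1))) := by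
      intro x hx
      rw [mem_sphere_zero_iff_norm, ← hFs x hx]
      push_cast
      rw [show ((k:ℝ) + 3 - 2) * ‖x‖ ^ 2 / (k + 1) = ‖x‖ ^ 2 by field_simp; ring,
        Real.sqrt_sq (norm_nonneg x)]
    exact measure_mono_null hsub (Measure.addHaar_sphere _ _ _)
  have hae : (Metric.ball (0 : E (k + 3)) R \ F : Set (E (k + 3))) =ᵐ[volume]
      Metric.ball (0 : E (k + 3)) R := sdiff_null_ae_eq_self hF0
  have hvol : volume (Metric.ball (0 : E (k + 3)) R \ F) =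
      SS k * ENNReal.ofReal (R ^ (k + 3) / (k + 3)) := by
    rw [measure_congr hae, vol_ball' k hR.le]
  have hpos : 0 < R ^ (k + 3) / ((k:ℝ) + 3) := by positivity
  have hS : 0 < (SS k).toReal := ENNReal.toReal_pos (SS_ne_zero k) (SS_ne_top k)
  refine ⟨Metric.isOpen_ball.measurableSet.diff hF.measurableSet, ?_, ?_, ?_⟩
  · rw [hvol]
    exact ENNReal.mul_pos (SS_ne_zero k) (ENNReal.ofReal_pos.2 hpos).ne'
  · rw [hvol]
    exact ENNReal.mul_lt_top (SS_ne_top k).lt_top ENNReal.ofReal_lt_top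
  · intro x hx
    rw [measureReal_def, hvol, ENNReal.toReal_mul, ENNReal.toReal_ofReal hpos.le,
      setIntegral_congr_set hae, ball_pot k x hR.le]
    by_cases hxF : x ∈ F
    · have h2 := hFs x hxF
      have h3 : ‖x‖ < 1 := norm_lt_one (n := k + 3) (by omega) h1 h2
      have hR3 : 0 < R ^ (k + 3) := by positivity
      rw [sphMean, sph_mean k x h3.ne, max_eq_right h3.le, one_pow, inv_one,
        PP_in k (norm_nonneg x) (h3.trans h1).le]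
      push_cast at h2
      have h5 : ‖x‖ ^ 2 / ((k:ℝ) + 3) + (R ^ 2 - ‖x‖ ^ 2) / 2 = R ^ (k + 3) / (k + 3) := by
        field_simp
        linarith
      rw [h5, ← mul_assoc]
      field_simp
    · have h3 : R ≤ ‖x‖ := by
        by_contra hc
        push Not at hc
        exact hx ⟨by rwa [mem_ball_zero_iff], hxF⟩
      have h4 : 1 < ‖x‖ := by linarith
      rw [sphMean, sph_mean k x h4.ne', max_eq_left h4.le, PP_out k hR.le h3]
      field_simp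

lemma not_annulus {n : ℕ} (hn : 3 ≤ n) {R : ℝ} (h1 : 1 < R) (h2 : 2 * R ^ n < n * R ^ 2)
    {F : Set (E n)} (hne : F.Nonempty)
    (hFs : ∀ x ∈ F, (n - 2) * ‖x‖ ^ 2 = n * R ^ 2 - 2 * R ^ n) :
    ¬ ∃ r₁ r₂ : ℝ, r₁ < r₂ ∧ Metric.ball (0 : E n) R \ F = {x | r₁ < ‖x‖ ∧ ‖x‖ < r₂} := by
  rintro ⟨r₁, r₂, -, h⟩
  obtain ⟨p, hp⟩ := hne
  let i : Fin n := ⟨0, by omega⟩
  have hz : (0 : E n) ∈ Metric.ball (0 : E n) R \ F := by
    refine ⟨Metric.mem_ball_self (by linarith), fun h0 => ?_⟩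
    have h3 := hFs 0 h0
    rw [norm_zero, zero_pow two_ne_zero, mul_zero] at h3
    linarith
  have hn1 : ‖(EuclideanSpace.single i (1:ℝ) : E n)‖ = 1 := by simp
  have hq : (EuclideanSpace.single i (1:ℝ) : E n) ∈ Metric.ball (0 : E n) R \ F := by
    refine ⟨by rw [mem_ball_zero_iff, hn1]; exact h1, fun h0 => ?_⟩
    have h3 := norm_lt_one hn h1 (hFs _ h0)
    rw [hn1] at h3
    exact lt_irrefl _ h3
  rw [h] at hz hq
  have hpn : ‖p‖ < 1 := norm_lt_one hn h1 (hFs p hp)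
  have hz1 : r₁ < ‖(0 : E n)‖ := hz.1
  rw [norm_zero] at hz1
  have hq2 : ‖(EuclideanSpace.single i (1:ℝ) : E n)‖ < r₂ := hq.2
  rw [hn1] at hq2
  have hpm : p ∈ Metric.ball (0 : E n) R \ F := by
    rw [h]
    exact ⟨lt_of_lt_of_le hz1 (norm_nonneg p), hpn.trans hq2⟩
  exact hpm.2 hp

/-- In every dimension `n ≥ 3` there is a non-empty open set in `ℝⁿ`, of finite volume, with the
mean-value property that is not an annulus; more precisely all balls of radius `R > 1` with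
`2 Rⁿ < n R²` minus a non-empty closed part of the sphere `(n - 2) ‖x‖² = n R² - 2 Rⁿ` are such
sets. -/
theorem result (n : ℕ) (hn : 3 ≤ n) :
    (∀ R : ℝ, 1 < R → 2 * R ^ n < n * R ^ 2 → ∀ F : Set (EuclideanSpace ℝ (Fin n)), IsClosed F →
      F.Nonempty → (∀ x ∈ F, ((n : ℝ) - 2) * ‖x‖ ^ 2 = n * R ^ 2 - 2 * R ^ n) →
      IsOpen (Metric.ball (0 : EuclideanSpace ℝ (Fin n)) R \ F) ∧
      HasMVP n (Metric.ball (0 : EuclideanSpace ℝ (Fin n)) R \ F) ∧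
      ¬ ∃ r₁ r₂ : ℝ, r₁ < r₂ ∧
        Metric.ball (0 : EuclideanSpace ℝ (Fin n)) R \ F = {x | r₁ < ‖x‖ ∧ ‖x‖ < r₂}) ∧
    ∃ Ω : Set (EuclideanSpace ℝ (Fin n)), IsOpen Ω ∧ Ω.Nonempty ∧ volume Ω < ⊤ ∧
      HasMVP n Ω ∧ ¬ ∃ r₁ r₂ : ℝ, r₁ < r₂ ∧ Ω = {x | r₁ < ‖x‖ ∧ ‖x‖ < r₂} := by
  have main : ∀ R : ℝ, 1 < R → 2 * R ^ n < n * R ^ 2 → ∀ F : Set (EuclideanSpace ℝ (Fin n)),
      IsClosed F → F.Nonempty → (∀ x ∈ F, ((n : ℝ) - 2) * ‖x‖ ^ 2 = n * R ^ 2 - 2 * R ^ n) →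
      IsOpen (Metric.ball (0 : EuclideanSpace ℝ (Fin n)) R \ F) ∧
      HasMVP n (Metric.ball (0 : EuclideanSpace ℝ (Fin n)) R \ F) ∧
      ¬ ∃ r₁ r₂ : ℝ, r₁ < r₂ ∧
        Metric.ball (0 : EuclideanSpace ℝ (Fin n)) R \ F = {x | r₁ < ‖x‖ ∧ ‖x‖ < r₂} := by
    intro R h1 h2 F hF hne hFs
    refine ⟨Metric.isOpen_ball.sdiff hF, ?_, not_annulus hn h1 h2 hne hFs⟩
    obtain ⟨k, rfl⟩ : ∃ k, n = k + 3 := ⟨n - 3, by omega⟩
    exact mvp_family h1 hF hFs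
  refine ⟨main, ?_⟩
  have h3 : (3:ℝ) ≤ n := by exact_mod_cast hn
  obtain ⟨R, hR1, hR2⟩ : ∃ R : ℝ, 1 < R ∧ 2 * R ^ n < n * R ^ 2 := by
    have hc : Tendsto (fun R : ℝ => n * R ^ 2 - 2 * R ^ n) (𝓝[>] 1)
        (𝓝 (n * (1:ℝ) ^ 2 - 2 * (1:ℝ) ^ n)) := by
      apply Tendsto.mono_left _ nhdsWithin_le_nhds
      exact (by fun_prop : Continuous fun R : ℝ => n * R ^ 2 - 2 * R ^ n).tendsto 1
    have hp : (0:ℝ) < n * (1:ℝ) ^ 2 - 2 * (1:ℝ) ^ n := by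
      rw [one_pow, one_pow]; linarith
    obtain ⟨R, hR, hR'⟩ := ((hc.eventually (lt_mem_nhds hp)).and self_mem_nhdsWithin).exists
    exact ⟨R, hR', by linarith⟩
  have hc0 : 0 ≤ ((n:ℝ) * R ^ 2 - 2 * R ^ n) / (n - 2) :=
    div_nonneg (by linarith) (by linarith)
  let i : Fin n := ⟨0, by omega⟩
  set p : E n := EuclideanSpace.single i (Real.sqrt (((n:ℝ) * R ^ 2 - 2 * R ^ n) / (n - 2)))
    with hp
  have hpn : ‖p‖ ^ 2 = ((n:ℝ) * R ^ 2 - 2 * R ^ n) / (n - 2) := by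
    rw [hp, PiLp.norm_single, Real.norm_of_nonneg (Real.sqrt_nonneg _), Real.sq_sqrt hc0]
  have h20 : (n:ℝ) - 2 ≠ 0 := by linarith
  obtain ⟨h1, h2, h4⟩ := main R hR1 hR2 {p} isClosed_singleton (singleton_nonempty p) (by
      intro x hx
      rw [mem_singleton_iff.1 hx, hpn]
      field_simp)
  refine ⟨_, h1, ?_, h2.2.2.1, h2, h4⟩
  by_contra hc
  rw [not_nonempty_iff_eq_empty] at hc
  have := h2.2.1
  rw [hc] at this
  simp at this

end Pool.Agent.Results.MP_88aa81_an.EveryDimension
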